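import Pool.Agent.U530.LG.Main
import Pool.Agent.N6.W.Slow

/-!
# Full groups of actions of linear growth
-/

set_option autoImplicit false

open scoped Pointwise Topology

namespace Pool.Agent.U530.LG

open Pool.Agent.H71R2.Thin Pool.Agent.N6.W

universe u v w

/-- For arbitrarily large `n` all sets `E ^ n x` have at most `c * n` points. -/
def LinA (Γ : Type w) (X : Type v) [Group Γ] [MulAction Γ X] : Prop :=
  ∀ E : Set Γ, E.Finite → ∃ c : ℕ, ∀ n₀ : ℕ, ∃ n : ℕ, n₀ ≤ n ∧ ∀ x : X,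
    (EB E n x).ncard ≤ c * n

theorem virt_ab_full (G : Type u) [Group G] [Group.IsFinitelyPresented G] (L : Subgroup G)
    (hLfg : L.FG) (hLc : ∀ K : Subgroup L, K.FiniteIndex → (⁅K, K⁆ : Subgroup L).FG)
    (Γ : Type w) (X : Type v) [Group Γ] [MulAction Γ X] (hlin : LinA Γ X)
    (f : G →* Equiv.Perm X) (h : ∀ g, ∃ E : Set Γ, E.Finite ∧ ∀ x, ∃ γ ∈ E, f g x = γ • x) :
    ∃ A : Subgroup L, A.FiniteIndex ∧ ∀ a ∈ A, ∀ b ∈ A, f a * f b = f b * f a := by
  classical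
  obtain ⟨S0, hS0f, hS0⟩ := exists_gen G
  have hSf : (sym S0).Finite := by
    have := sym_finite hS0f.toFinset
    rwa [hS0f.coe_toFinset] at this
  choose E hEf hE using h
  set E' : Set Γ := ⋃ s ∈ sym S0, E s with hE'
  have hE'f : E'.Finite := hSf.biUnion fun s _ => hEf s
  obtain ⟨c, hc⟩ := hlin E' hE'f
  obtain ⟨n0, hn0⟩ := main_radius.{u, v} G hSf (one_mem_sym _) (sym_closure hS0) L hLfg hLc c
  obtain ⟨n, hn, hcn⟩ := hc n0
  obtain ⟨A, hA, hAc⟩ := hn0 n hn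
  let _ : MulAction G X := MulAction.compHom X f
  have hsm : ∀ (g : G) (x : X), g • x = f g x := fun _ _ => rfl
  have hsub : ∀ (m : ℕ) (x y : X), y ∈ Bl (sym S0) x m → y ∈ EB E' m x := by
    intro m x
    induction m with
    | zero =>
      intro y hy
      have hy' : y = x := hy
      subst hy'
      exact ⟨1, by rw [pow_zero]; rfl, (one_smul _ _).symm⟩
    | succ m ih =>
      rintro _ ⟨k, hk, y, hy, rfl⟩
      obtain ⟨γ, hγ, rfl⟩ := ih y hy
      obtain ⟨γ', hγ', e⟩ := hE k (γ • x)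
      refine ⟨γ' * γ, ?_, ?_⟩
      · rw [pow_succ']
        exact Set.mul_mem_mul (Set.mem_biUnion hk hγ') hγ
      · rw [hsm, e, mul_smul]
  refine ⟨A, hA, fun a ha b hb => Equiv.ext fun x => ?_⟩
  have h1 : (Bl (sym S0) x n).ncard ≤ c * n :=
    (Set.ncard_le_ncard (hsub n x) (eb_finite hE'f n x)).trans (hcn x)
  exact hAc X x h1 a ha b hb

theorem virt_ab_full_top (G : Type u) [Group G] [Group.IsFinitelyPresented G] (L : Subgroup G)
    (hLfg : L.FG) (hLc : ∀ K : Subgroup L, K.FiniteIndex → (⁅K, K⁆ : Subgroup L).FG)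
    (Γ : Type w) (X : Type v) [Group Γ] [MulAction Γ X] (hlin : LinA Γ X)
    [TopologicalSpace X] [CompactSpace X] (f : G →* (X ≃ₜ X))
    (h : ∀ g x, ∃ γ : Γ, ∀ᶠ y in 𝓝 x, f g y = γ • y) :
    ∃ A : Subgroup L, A.FiniteIndex ∧ ∀ a ∈ A, ∀ b ∈ A, f a * f b = f b * f a := by
  classical
  let ι : (X ≃ₜ X) →* Equiv.Perm X :=
    { toFun := Homeomorph.toEquiv
      map_one' := rfl
      map_mul' := fun _ _ => rfl }
  have hι : Function.Injective ι := Homeomorph.toEquiv_injective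
  obtain ⟨A, hA, hab⟩ := virt_ab_full G L hLfg hLc Γ X hlin (ι.comp f) fun g => by
    choose γ hγ using h g
    obtain ⟨t, ht⟩ := CompactSpace.elim_nhds_subcover (fun x => {y | f g y = γ x • y}) hγ
    refine ⟨γ '' (t : Set X), t.finite_toSet.image _, fun x => ?_⟩
    have hx : x ∈ (⋃ z ∈ t, {y | f g y = γ z • y}) := by rw [ht]; trivial
    obtain ⟨z, hz, hxz⟩ := Set.mem_iUnion₂.1 hx
    exact ⟨γ z, ⟨z, hz, rfl⟩, hxz⟩
  refine ⟨A, hA, fun a ha b hb => hι ?_⟩
  rw [map_mul, map_mul]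
  exact hab a ha b hb

end Pool.Agent.U530.LG
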