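import Pool.Agent.H71R2.Thin.Common

/-!
# Half-infinite chains with a foreign left end

`F` is a finite set in one action, `A ⊆ B` are finite sets in a second action; the surroundings of
the boundaries of `F`, `A` and `B` look the same. The chain consists of `F` and of copies of
`B \ A` with levels `0, 1, 2, ...`.
-/

set_option autoImplicit false

open scoped Pointwise

namespace Pool.Agent.U530.LG

open Pool.Agent.H71R2.Thin

universe u v

variable {G : Type u} [Group G] {X X' : Type v} [MulAction G X] [MulAction G X']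

/-- The surroundings of the boundaries of `F` and `A` look the same. -/
structure LI (K : Set G) (F : Set X) (A : Set X') (θ : X → X') (θ' : X' → X) : Prop where
  map : ∀ r ≤ 4, ∀ x ∈ nb K r (bd K F), θ x ∈ nb K r (bd K A)
  map' : ∀ r ≤ 4, ∀ x ∈ nb K r (bd K A), θ' x ∈ nb K r (bd K F)
  left : ∀ x ∈ nb K 4 (bd K F), θ' (θ x) = x
  right : ∀ x ∈ nb K 4 (bd K A), θ (θ' x) = x
  mem : ∀ x ∈ nb K 4 (bd K F), (x ∈ F ↔ θ x ∈ A)
  mem' : ∀ x ∈ nb K 4 (bd K A), (θ' x ∈ F ↔ x ∈ A)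
  equi : ∀ x ∈ nb K 3 (bd K F), ∀ k ∈ K, θ (k • x) = k • θ x
  equi' : ∀ x ∈ nb K 3 (bd K A), ∀ k ∈ K, θ' (k • x) = k • θ' x

open Classical in
/-- The chart of the left end. -/
noncomputable def m1 (F : Set X) (θ : X → X') (x : X) : X ⊕ (X' × ℕ) :=
  if x ∈ F then Sum.inl x else Sum.inr (θ x, 0)

open Classical in
/-- The charts of the other blocks. -/
noncomputable def m2 (A B : Set X') (θ' : X' → X) (η η' : X' → X') (y : X') :
    ℕ → X ⊕ (X' × ℕ)
  | 0 => if y ∈ A then Sum.inl (θ' y) else if y ∈ B then Sum.inr (y, 0) else Sum.inr (η' y, 1)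
  | n + 1 => if y ∈ A then Sum.inr (η y, n) else if y ∈ B then Sum.inr (y, n + 1)
      else Sum.inr (η' y, n + 2)

/-- The moves. -/
noncomputable def mv (F : Set X) (A B : Set X') (θ : X → X') (θ' : X' → X) (η η' : X' → X') (g : G) :
    X ⊕ (X' × ℕ) → X ⊕ (X' × ℕ)
  | Sum.inl x => m1 F θ (g • x)
  | Sum.inr (y, n) => m2 A B θ' η η' (g • y) n

/-- The chain. -/
def W (F : Set X) (A B : Set X') : Set (X ⊕ (X' × ℕ)) :=
  {w | (∀ x, w = Sum.inl x → x ∈ F) ∧ ∀ y n, w = Sum.inr (y, n) → y ∈ B ∧ y ∉ A}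

theorem inl_mem {F : Set X} {A B : Set X'} {x : X} :
    (Sum.inl x : X ⊕ (X' × ℕ)) ∈ W F A B ↔ x ∈ F := by
  constructor
  · exact fun h => h.1 x rfl
  · exact fun h => ⟨fun y e => by rwa [← Sum.inl_injective e], fun y n e => by simp at e⟩

theorem inr_mem {F : Set X} {A B : Set X'} {y : X'} {n : ℕ} :
    (Sum.inr (y, n) : X ⊕ (X' × ℕ)) ∈ W F A B ↔ y ∈ B ∧ y ∉ A := by
  constructor
  · exact fun h => h.2 y n rfl
  · refine fun h => ⟨fun x e => by simp at e, fun y' n' e => ?_⟩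
    have := Sum.inr_injective e
    rw [Prod.mk.injEq] at this
    rwa [← this.1]

section

variable {F : Set X} {A B : Set X'} {θ : X → X'} {θ' : X' → X} {η η' : X' → X'} {K : Set G}

theorem m1_mem {x : X} (h : x ∈ F) : m1 F θ x = Sum.inl x := if_pos h

theorem m1_notMem {x : X} (h : x ∉ F) : m1 F θ x = Sum.inr (θ x, 0) := if_neg h

theorem m2_mid {y : X'} (hA : y ∉ A) (hB : y ∈ B) (n : ℕ) :
    m2 A B θ' η η' y n = Sum.inr (y, n) := by
  cases n <;> simp [m2, hA, hB]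

theorem m2_out {y : X'} (hA : y ∉ A) (hB : y ∉ B) (n : ℕ) :
    m2 A B θ' η η' y n = Sum.inr (η' y, n + 1) := by
  cases n <;> simp [m2, hA, hB]

theorem m2_zero {y : X'} (hA : y ∈ A) : m2 A B θ' η η' y 0 = Sum.inl (θ' y) := by
  simp [m2, hA]

theorem m2_succ {y : X'} (hA : y ∈ A) (n : ℕ) :
    m2 A B θ' η η' y (n + 1) = Sum.inr (η y, n) := by
  simp [m2, hA]

variable (h1 : LI K F A θ θ') (h2 : Glue K A B η η')

include h1 h2

theorem t1 {u : X} (hu : u ∈ nb K 4 (bd K F)) : m2 A B θ' η η' (θ u) 0 = m1 F θ u := by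
  by_cases h : u ∈ F
  · rw [m1_mem h, m2_zero ((h1.mem u hu).1 h), h1.left u hu]
  · rw [m1_notMem h, m2_mid (fun h' => h ((h1.mem u hu).2 h')) (h2.inB _ (h1.map 4 le_rfl u hu))]

theorem t1' {v : X'} (hv : v ∈ nb K 4 (bd K A)) : m1 F θ (θ' v) = m2 A B θ' η η' v 0 := by
  rw [← t1 h1 h2 (h1.map' 4 le_rfl v hv), h1.right v hv]

omit h1 [MulAction G X] in
theorem t2 {v : X'} (hv : v ∈ nb K 4 (bd K A)) (n : ℕ) :
    m2 A B θ' η η' (η v) n = m2 A B θ' η η' v (n + 1) := by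
  have hB := h2.map 4 le_rfl v hv
  by_cases h : v ∈ A
  · rw [m2_succ h, m2_mid (h2.notA _ hB) ((h2.mem v hv).1 h)]
  · rw [m2_mid h (h2.inB v hv), m2_out (h2.notA _ hB) (fun h' => h ((h2.mem v hv).2 h')),
      h2.left v hv]

omit h1 [MulAction G X] in
theorem t2' {v : X'} (hv : v ∈ nb K 4 (bd K B)) (n : ℕ) :
    m2 A B θ' η η' (η' v) (n + 1) = m2 A B θ' η η' v n := by
  rw [← t2 h2 (h2.map' 4 le_rfl v hv), h2.right v hv]

omit h1 h2 [MulAction G X'] in
theorem bdF {g : G} (hg : g ∈ K) {x : X} (hx : x ∈ F) (hgx : g • x ∉ F) :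
    g • x ∈ nb K 1 (bd K F) :=
  nb_succ_of_mem hg (show x ∈ nb K 0 (bd K F) from ⟨hx, g, hg, hgx⟩)

theorem mv_mem {g : G} (hg : g ∈ K) {w : X ⊕ (X' × ℕ)} (hw : w ∈ W F A B) :
    mv F A B θ θ' η η' g w ∈ W F A B := by
  rcases w with x | ⟨y, n⟩
  · rw [inl_mem] at hw
    change m1 F θ (g • x) ∈ _
    by_cases h : g • x ∈ F
    · rw [m1_mem h, inl_mem]; exact h
    · have h3 := nb_mono h2.one (by norm_num : 1 ≤ 4) _ (bdF hg hw h)
      rw [m1_notMem h, inr_mem]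
      exact ⟨h2.inB _ (h1.map 4 le_rfl _ h3), fun h' => h ((h1.mem _ h3).2 h')⟩
  · rw [inr_mem] at hw
    change m2 A B θ' η η' (g • y) n ∈ _
    by_cases hA : g • y ∈ A
    · have h3 : g • y ∈ nb K 4 (bd K A) :=
        nb_mono h2.one (Nat.zero_le 4) _ (h2.bdA_of hg hw.2 hA)
      cases n with
      | zero => rw [m2_zero hA, inl_mem]; exact (h1.mem' _ h3).2 hA
      | succ n =>
        rw [m2_succ hA, inr_mem]
        exact ⟨(h2.mem _ h3).1 hA, h2.notA _ (h2.map 4 le_rfl _ h3)⟩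
    · by_cases hB : g • y ∈ B
      · rw [m2_mid hA hB, inr_mem]; exact ⟨hB, hA⟩
      · have h3 : g • y ∈ nb K 4 (bd K B) := nb_mono h2.one (by norm_num : 1 ≤ 4) _
          (nb_succ_of_mem hg (show y ∈ nb K 0 (bd K B) from ⟨hw.1, g, hg, hB⟩))
        rw [m2_out hA hB, inr_mem]
        exact ⟨h2.inB _ (h2.map' 4 le_rfl _ h3), fun h' => hB ((h2.mem' _ h3).1 h')⟩

theorem mv_mul {g g' : G} (hg : g ∈ K) (hg' : g' ∈ K) {w : X ⊕ (X' × ℕ)} (hw : w ∈ W F A B) :
    mv F A B θ θ' η η' g (mv F A B θ θ' η η' g' w) = mv F A B θ θ' η η' (g * g') w := by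
  rcases w with x | ⟨y, n⟩
  · rw [inl_mem] at hw
    change mv F A B θ θ' η η' g (m1 F θ (g' • x)) = m1 F θ ((g * g') • x)
    rw [mul_smul]
    by_cases h : g' • x ∈ F
    · rw [m1_mem h]; rfl
    · have h3 := bdF hg' hw h
      rw [m1_notMem h]
      change m2 A B θ' η η' (g • θ (g' • x)) 0 = _
      rw [← h1.equi _ (nb_mono h2.one (by norm_num) _ h3) g hg]
      exact t1 h1 h2 (nb_mono h2.one (by norm_num) _ (nb_succ_of_mem hg h3))
  · rw [inr_mem] at hw
    change mv F A B θ θ' η η' g (m2 A B θ' η η' (g' • y) n) = m2 A B θ' η η' ((g * g') • y) n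
    rw [mul_smul]
    by_cases hA : g' • y ∈ A
    · have h3 : g' • y ∈ nb K 0 (bd K A) := h2.bdA_of hg' hw.2 hA
      have h4 : g' • y ∈ nb K 3 (bd K A) := nb_mono h2.one (by norm_num) _ h3
      have h5 : g • g' • y ∈ nb K 4 (bd K A) := nb_succ_of_mem hg h4
      cases n with
      | zero =>
        rw [m2_zero hA]
        change m1 F θ (g • θ' (g' • y)) = _
        rw [← h1.equi' _ h4 g hg]
        exact t1' h1 h2 h5
      | succ n =>
        rw [m2_succ hA]
        change m2 A B θ' η η' (g • η (g' • y)) n = _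
        rw [← h2.equi _ h4 g hg]
        exact t2 h2 h5 n
    · by_cases hB : g' • y ∈ B
      · rw [m2_mid hA hB]; rfl
      · have h3 : g' • y ∈ nb K 3 (bd K B) := nb_mono h2.one (by norm_num : 1 ≤ 3) _
          (nb_succ_of_mem hg' (show y ∈ nb K 0 (bd K B) from ⟨hw.1, g', hg', hB⟩))
        rw [m2_out hA hB]
        change m2 A B θ' η η' (g • η' (g' • y)) (n + 1) = _
        rw [← h2.equi' _ h3 g hg]
        exact t2' h2 (nb_succ_of_mem hg h3) n

omit h1 h2 in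
theorem mv_one {w : X ⊕ (X' × ℕ)} (hw : w ∈ W F A B) :
    mv F A B θ θ' η η' (1 : G) w = w := by
  rcases w with x | ⟨y, n⟩
  · rw [inl_mem] at hw
    change m1 F θ ((1 : G) • x) = _
    rw [one_smul, m1_mem hw]
  · rw [inr_mem] at hw
    change m2 A B θ' η η' ((1 : G) • y) n = _
    rw [one_smul, m2_mid hw.2 hw.1]

/-- The permutation of the chain defined by an element of `K`. -/
noncomputable def permW (g : G) (hg : g ∈ K) : Equiv.Perm (W F A B) where
  toFun w := ⟨mv F A B θ θ' η η' g w.1, mv_mem h1 h2 hg w.2⟩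
  invFun w := ⟨mv F A B θ θ' η η' g⁻¹ w.1, mv_mem h1 h2 (h2.inv g hg) w.2⟩
  left_inv w := by
    apply Subtype.ext
    change mv F A B θ θ' η η' g⁻¹ (mv F A B θ θ' η η' g w.1) = w.1
    rw [mv_mul h1 h2 (h2.inv g hg) hg w.2, inv_mul_cancel, mv_one w.2]
  right_inv w := by
    apply Subtype.ext
    change mv F A B θ θ' η η' g (mv F A B θ θ' η η' g⁻¹ w.1) = w.1
    rw [mv_mul h1 h2 hg (h2.inv g hg) w.2, mul_inv_cancel, mv_one w.2]

open Classical in
/-- The map from the group to permutations. -/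
noncomputable def fW (g : G) : Equiv.Perm (W F A B) := if hg : g ∈ K then permW h1 h2 g hg else 1

theorem fW_apply {g : G} (hg : g ∈ K) (w : W F A B) :
    (fW h1 h2 g w : X ⊕ (X' × ℕ)) = mv F A B θ θ' η η' g w.1 := by
  unfold fW
  rw [dif_pos hg]
  rfl

theorem fW_mul {g g' : G} (hg : g ∈ K) (hg' : g' ∈ K) (hgg : g * g' ∈ K) :
    fW h1 h2 (g * g') = fW h1 h2 g * fW h1 h2 g' := by
  apply Equiv.ext
  intro w
  apply Subtype.ext
  rw [Equiv.Perm.mul_apply, fW_apply h1 h2 hgg, fW_apply h1 h2 hg, fW_apply h1 h2 hg',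
    mv_mul h1 h2 hg hg' w.2]

end

end Pool.Agent.U530.LG
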