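import Pool.Agent.U530.LG.Pattern

/-!
# Balls of linear growth contain two cuts of the same pattern
-/

set_option autoImplicit false

open scoped Pointwise commutatorElement

namespace Pool.Agent.U530.LG

open Pool.Agent.H71R2.Thin

universe u v

variable {G : Type u} [Group G]

theorem sum_bd {X : Type v} [MulAction G X] {S K : Set G} (hSf : S.Finite)
    (h1S : (1 : G) ∈ S) {l : ℕ} (hKS : K ⊆ S ^ l)
    (x0 : X) (J C : ℕ) :
    (C + 1) * ((Finset.Icc 1 J).filter fun j => ¬ (bd K (Bl S x0 (5 * l * j))).ncard ≤ C).card ≤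
      (Bl S x0 (5 * l * J)).ncard := by
  classical
  have hDf : ∀ j, (bd K (Bl S x0 (5 * l * j))).Finite := fun j =>
    (bl_finite hSf x0 (5 * l * j)).subset fun x hx => hx.1
  set D : ℕ → Finset X := fun j => (hDf j).toFinset with hD
  have hDc : ∀ j, (D j).card = (bd K (Bl S x0 (5 * l * j))).ncard := fun j =>
    (Set.ncard_eq_toFinset_card _ (hDf j)).symm
  have hmemD : ∀ j x, x ∈ D j ↔ x ∈ bd K (Bl S x0 (5 * l * j)) := fun j x =>
    Set.Finite.mem_toFinset _
  have hdisj : ((Finset.Icc 1 J : Finset ℕ) : Set ℕ).PairwiseDisjoint D := by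
    have key : ∀ i j, i < j → Disjoint (D i) (D j) := by
      intro i j hij
      rw [Finset.disjoint_left]
      intro x hx hx'
      rw [hmemD] at hx hx'
      have hle : 5 * l * i + l ≤ 5 * l * j := by nlinarith
      exact Set.disjoint_left.1 (bd_disj h1S hKS hle) hx hx'
    intro i _ j _ hij
    rcases lt_or_gt_of_ne hij with h | h
    · exact key i j h
    · exact (key j i h).symm
  have h2 : ∑ j ∈ Finset.Icc 1 J, (D j).card ≤ (Bl S x0 (5 * l * J)).ncard := by
    rw [← Finset.card_biUnion hdisj, Set.ncard_eq_toFinset_card _ (bl_finite hSf x0 _)]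
    refine Finset.card_le_card fun x hx => ?_
    rw [Finset.mem_biUnion] at hx
    obtain ⟨j, hj, hx⟩ := hx
    rw [hmemD] at hx
    rw [Set.Finite.mem_toFinset]
    exact nb_mono h1S (Nat.mul_le_mul_left _ (Finset.mem_Icc.1 hj).2) _ hx.1
  refine le_trans ?_ h2
  calc (C + 1) * ((Finset.Icc 1 J).filter fun j =>
          ¬ (bd K (Bl S x0 (5 * l * j))).ncard ≤ C).card
      = ∑ j ∈ (Finset.Icc 1 J).filter fun j =>
          ¬ (bd K (Bl S x0 (5 * l * j))).ncard ≤ C, (C + 1) := by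
        rw [Finset.sum_const, smul_eq_mul, mul_comm]
    _ ≤ ∑ j ∈ (Finset.Icc 1 J).filter fun j =>
          ¬ (bd K (Bl S x0 (5 * l * j))).ncard ≤ C, (D j).card := by
        refine Finset.sum_le_sum fun j hj => ?_
        rw [hDc]
        have := (Finset.mem_filter.1 hj).2
        omega
    _ ≤ ∑ j ∈ Finset.Icc 1 J, (D j).card :=
        Finset.sum_le_sum_of_subset (Finset.filter_subset _ _)

/-- Many good cuts. -/
theorem many {c l n J C b a r P : ℕ} (hC : C = 10 * l * c) (hn : n < 5 * l * (J + 1))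
    (hb : (C + 1) * b ≤ c * n) (hab : a + b = J) (hJ : 2 * (P + r) + 4 ≤ J) : P + r < a := by
  have h1 : 2 * b < J + 1 := by
    by_contra h
    push Not at h
    have h2 : c * n ≤ c * (5 * l * (J + 1)) := Nat.mul_le_mul_left _ hn.le
    have h3 : c * (5 * l * (J + 1)) ≤ c * (5 * l * (2 * b)) :=
      Nat.mul_le_mul_left _ (Nat.mul_le_mul_left _ h)
    have h4 : (C + 1) * b = c * (5 * l * (2 * b)) + b := by rw [hC]; ring
    omega
  omega

/-- An orbit leaving a set meets its boundary. -/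
theorem exit_path {X : Type v} [MulAction G X] {K D : Set G} (hDK : D ⊆ K)
    (hDinv : ∀ d ∈ D, d⁻¹ ∈ D) {E : Set X} {x0 : X} (hx0 : x0 ∈ E) {g : G}
    (hg : g ∈ Subgroup.closure D) (hgx : g • x0 ∉ E) : ∃ a ∈ bd K E, Conn D E x0 a := by
  by_contra hcon
  push Not at hcon
  have h1 : ∀ s ∈ D, ∀ y, y ∈ E ∧ Conn D E x0 y → s • y ∈ E ∧ Conn D E x0 (s • y) := by
    rintro s hs y ⟨hy, hc⟩
    have h2 : s • y ∈ E := by
      by_contra h
      exact hcon y ⟨hy, s, hDK hs, h⟩ hc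
    exact ⟨h2, hc.step hs h2⟩
  have h2 : ∀ g ∈ Subgroup.closure D, ∀ y, y ∈ E ∧ Conn D E x0 y →
      (g • y ∈ E ∧ Conn D E x0 (g • y)) ∧ (g⁻¹ • y ∈ E ∧ Conn D E x0 (g⁻¹ • y)) := by
    intro g hg
    induction hg using Subgroup.closure_induction with
    | mem s hs => exact fun y hy => ⟨h1 s hs y hy, h1 s⁻¹ (hDinv s hs) y hy⟩
    | one => exact fun y hy => by rw [inv_one, one_smul]; exact ⟨hy, hy⟩
    | mul a b _ _ iha ihb =>
      intro y hy
      rw [mul_inv_rev, mul_smul, mul_smul]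
      exact ⟨(iha _ (ihb y hy).1).1, (ihb _ (iha y hy).2).2⟩
    | inv a _ iha =>
      intro y hy
      rw [inv_inv]
      exact ⟨(iha y hy).2, (iha y hy).1⟩
  exact hgx (h2 g hg x0 ⟨hx0, Conn.base⟩).1.1

/-- The centres of balls of linear growth which do not contain their orbits under the group
generated by `D` are fixed. -/
theorem fixed_point {S K D : Set G} (hSf : S.Finite) (h1S : (1 : G) ∈ S) (hDS : D ⊆ S) (hDinv : ∀ d ∈ D, d⁻¹ ∈ D)
    (hK : Large.{u, v} S K) {l : ℕ} (hl : 0 < l) (hKS : K ⊆ S ^ l) (c : ℕ) {K0 : Subgroup G}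
    (hgood : ∀ p : Pt K (10 * l * c), HasPair.{u, v} K D (10 * l * c) p →
      GoodP.{u, v} S K D (10 * l * c) p K0) {r : ℕ} {T : Set G} (hT : T ⊆ S ^ r)
    {L' : Subgroup G} (hLn : ∀ a ∈ Subgroup.closure D, ∀ g ∈ L', a * g * a⁻¹ ∈ L')
    (hTL : Subgroup.closure T = L') (hL : L' ≤ ⁅K0, K0⁆) :
    ∃ n0 : ℕ, ∀ n, n0 ≤ n → ∀ (X : Type v) [MulAction G X] (x0 : X),
      (∃ g ∈ Subgroup.closure D, g • x0 ∉ Bl S x0 n) → (Bl S x0 n).ncard ≤ c * n →
      ∀ g ∈ L', g • x0 = x0 := by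
  classical
  set C := 10 * l * c with hC
  have hfin := finite_pt hK.fin C
  let _ : Fintype (Pt K C) := Fintype.ofFinite _
  set P := Fintype.card (Pt K C) with hP
  refine ⟨5 * l * (2 * (P + r) + 5), fun n hn X _ x0 hout hlin => ?_⟩
  obtain ⟨gL, hgL, hgout⟩ := hout
  set J := n / (5 * l) with hJ
  have h5l : 0 < 5 * l := by omega
  have hn1 : n < 5 * l * (J + 1) := by
    have := Nat.lt_mul_div_succ n h5l
    rw [← hJ] at this
    exact this
  have hJ1 : 2 * (P + r) + 4 ≤ J := by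
    have h6 : 2 * (P + r) + 5 ≤ J := by
      rw [hJ, Nat.le_div_iff_mul_le h5l, mul_comm]
      exact hn
    omega
  have hJn : 5 * l * J ≤ n := Nat.mul_div_le n _
  have hsub : Bl S x0 (5 * l * J) ⊆ Bl S x0 n := nb_mono h1S hJn _
  have hmono : ∀ {i j : ℕ}, i ≤ j → Bl S x0 (5 * l * i) ⊆ Bl S x0 (5 * l * j) := fun h =>
    nb_mono h1S (Nat.mul_le_mul_left _ h) _
  have hx0 : ∀ n, x0 ∈ Bl S x0 n := fun n => nb_mono h1S (Nat.zero_le n) _ rfl
  have hcnt := (sum_bd hSf h1S hKS x0 J C).trans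
    ((Set.ncard_le_ncard hsub (bl_finite hSf x0 n)).trans hlin)
  have hsplit := Finset.card_filter_add_card_filter_not (s := Finset.Icc 1 J)
    (fun j => (bd K (Bl S x0 (5 * l * j))).ncard ≤ C)
  have h3 : (Finset.Icc 1 J).card = J := by simp
  rw [h3] at hsplit
  have hmany := many hC hn1 hcnt hsplit hJ1
  set Js := (Finset.Icc 1 J).filter fun j => (bd K (Bl S x0 (5 * l * j))).ncard ≤ C with hJs
  set Js' := Js.filter fun j => r ≤ j with hJs'
  have hcard : P < Js'.card := by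
    have h4 : Js'.card + (Js.filter fun j => ¬ r ≤ j).card = Js.card :=
      Finset.card_filter_add_card_filter_not (s := Js) (fun j => r ≤ j)
    have h5 : (Js.filter fun j => ¬ r ≤ j).card ≤ r := by
      refine (Finset.card_le_card (t := Finset.range r) fun j hj => ?_).trans (by simp)
      rw [Finset.mem_filter] at hj
      rw [Finset.mem_range]
      omega
    omega
  have hmem : ∀ j ∈ Js', j ≤ J ∧ (bd K (Bl S x0 (5 * l * j))).ncard ≤ C ∧ r ≤ j := by
    intro j hj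
    rw [hJs', Finset.mem_filter, hJs, Finset.mem_filter, Finset.mem_Icc] at hj
    exact ⟨hj.1.1.2, hj.1.2, hj.2⟩
  have hexit : ∀ j ≤ J, ∃ a ∈ bd K (Bl S x0 (5 * l * j)), Conn D (Bl S x0 (5 * l * j)) x0 a := by
    intro j hj
    exact exit_path (hDS.trans hK.sub) hDinv (hx0 _) hgL fun h => hgout (hsub (hmono hj h))
  have hbne : ∀ j ≤ J, (bd K (Bl S x0 (5 * l * j))).Nonempty := by
    intro j hj
    obtain ⟨a, ha, -⟩ := hexit j hj
    exact ⟨a, ha⟩
  have hpat : ∀ j : ℕ, ∃ p : Pt K C, j ∈ Js' → HasP K D C (Bl S x0 (5 * l * j)) x0 p := by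
    intro j
    by_cases hj : j ∈ Js'
    · obtain ⟨p, hp⟩ := exists_hasP D x0 (bl_finite hSf x0 (5 * l * j)) (hbne j (hmem j hj).1)
        (hmem j hj).2.1
      exact ⟨p, fun _ => hp⟩
    · exact ⟨((fun _ _ => True, fun _ => True), (fun _ _ => True, fun _ => True)),
        fun h => absurd h hj⟩
  choose p hp using hpat
  obtain ⟨i, hi, j, hj, hij, hpp⟩ : ∃ i ∈ Js', ∃ j ∈ Js', i < j ∧ p i = p j := by
    obtain ⟨i, hi, j, hj, hne, h⟩ := Finset.exists_ne_map_eq_of_card_lt_of_maps_to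
      (t := (Finset.univ : Finset (Pt K C))) (by rwa [Finset.card_univ]) (f := p)
      (fun a _ => Finset.mem_univ _)
    rcases lt_or_gt_of_ne hne with h' | h'
    · exact ⟨i, hi, j, hj, h', h⟩
    · exact ⟨j, hj, i, hi, h', h.symm⟩
  have hlt : l * 5 + 5 * l * i ≤ 5 * l * j := by nlinarith
  have hfar : ∀ g ∈ K ^ 5, ∀ x ∈ Bl S x0 (5 * l * i), g • x ∈ Bl S x0 (5 * l * j) :=
    fun g hg x hx => nb_mono h1S hlt _ (bl_far h1S hKS hg hx)
  have hpi := hp i hi
  have hpj := hp j hj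
  rw [← hpp] at hpj
  obtain ⟨η, η', hglue, hd1, hd2⟩ := glue_of hK.one hK.inv hpi hpj hfar
  have hpair : HasPair.{u, v} K D C (p i) := ⟨X, inferInstance, _, _, η, η', x0, hglue, hpi,
    bl_finite hSf _ _, hx0 _, hd1, hd2⟩
  have hri : r ≤ 5 * l * i := by
    have := (hmem i hi).2.2
    nlinarith
  obtain ⟨a, ha, hca⟩ := hexit i (hmem i hi).1
  have hfix := fixed h1S hDS hK (hgood _ hpair) hT hLn hTL hL X (Bl S x0 (5 * l * i)) x0 hpi
    (nb_mono h1S hri _) ha hca
  intro g hg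
  rw [← hTL] at hg
  induction hg using Subgroup.closure_induction with
  | mem g hg => exact hfix g hg
  | one => exact one_smul _ _
  | mul a b _ _ iha ihb => rw [mul_smul, ihb, iha]
  | inv a _ iha => rw [inv_smul_eq_iff, iha]

end Pool.Agent.U530.LG
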