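import Pool.Agent.U530.LG.Chain

/-!
# The actions of a finitely presented group on chains
-/

set_option autoImplicit false

open scoped Pointwise

namespace Pool.Agent.U530.LG

open Pool.Agent.H71R2.Thin

universe u v

variable {G : Type u} [Group G]

/-- `Φ` is given by the moves on `S`. -/
def IsW (S : Set G) {X X' : Type v} [MulAction G X] [MulAction G X'] {F : Set X} {A B : Set X'}
    (θ : X → X') (θ' : X' → X) (η η' : X' → X') (Φ : G →* Equiv.Perm (W F A B)) : Prop :=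
  ∀ s ∈ S, ∀ w : W F A B, (Φ s w : X ⊕ (X' × ℕ)) = mv F A B θ θ' η η' s w.1

/-- `Φ` is given by the moves on `S`, periodic case. -/
def IsY (S : Set G) {X' : Type v} [MulAction G X'] {A B : Set X'}
    (η η' : X' → X') (Φ : G →* Equiv.Perm (Y A B)) : Prop :=
  ∀ s ∈ S, ∀ p : Y A B, (Φ s p : X' × ℤ) = M A B η η' s p.1

/-- The set `K` is large enough for the relations. -/
structure Large (S K : Set G) : Prop where
  fin : K.Finite
  one : (1 : G) ∈ K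
  inv : ∀ k ∈ K, k⁻¹ ∈ K
  sub : S ⊆ K
  homW : ∀ (X X' : Type v) [MulAction G X] [MulAction G X'] (F : Set X) (A B : Set X')
    (θ : X → X') (θ' : X' → X) (η η' : X' → X'), LI K F A θ θ' → Glue K A B η η' →
    ∃ Φ : G →* Equiv.Perm (W F A B), IsW S θ θ' η η' Φ
  homY : ∀ (X' : Type v) [MulAction G X'] (A B : Set X') (η η' : X' → X'), Glue K A B η η' →
    ∃ Φ : G →* Equiv.Perm (Y A B), IsY S η η' Φ

theorem exists_large [Group.IsFinitelyPresented G] {S : Set G} (hSf : S.Finite) :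
    ∃ K : Set G, Large.{u, v} S K := by
  classical
  obtain ⟨T, hT⟩ := fp_extend.{u, v} (G := G) hSf.toFinset
  set K0 : Finset G := insert 1 (hSf.toFinset ∪ T ∪ T * T) with hK0
  set K : Set G := (K0 : Set G) ∪ (K0 : Set G)⁻¹ with hKdef
  have hKf : K.Finite := K0.finite_toSet.union K0.finite_toSet.inv
  have h1K : (1 : G) ∈ K := Or.inl (by simp [hK0])
  have hKinv : ∀ k ∈ K, k⁻¹ ∈ K := by
    rintro k (hk | hk)
    · exact Or.inr (by rw [Set.mem_inv, inv_inv]; exact hk)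
    · exact Or.inl hk
  have hSK : S ⊆ K := fun s hs => Or.inl (by simp [hK0, hs])
  have hTK : ∀ t ∈ T, t ∈ K := fun t ht => Or.inl (by simp [hK0, ht])
  have hTTK : ∀ t ∈ T, ∀ t' ∈ T, t * t' ∈ K := fun t ht t' ht' => Or.inl (by
    have : t * t' ∈ T * T := Finset.mul_mem_mul ht ht'
    rw [Finset.mem_coe, hK0]
    exact Finset.mem_insert_of_mem (Finset.mem_union_right _ this))
  refine ⟨K, hKf, h1K, hKinv, hSK, ?_, ?_⟩
  · intro X X' _ _ F A B θ θ' η η' h1 h2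
    obtain ⟨Φ, hΦ⟩ := hT (Equiv.Perm (W F A B)) (fW h1 h2) (fun x hx y hy =>
      fW_mul h1 h2 (hTK x hx) (hTK y hy) (hTTK x hx y hy))
    refine ⟨Φ, fun s hs w => ?_⟩
    rw [hΦ s (by simpa using hs), fW_apply h1 h2 (hSK hs)]
  · intro X' _ A B η η' h2
    obtain ⟨Φ, hΦ⟩ := hT (Equiv.Perm (Y A B)) h2.f (fun x hx y hy =>
      h2.f_mul (hTK x hx) (hTK y hy) (hTTK x hx y hy))
    refine ⟨Φ, fun s hs w => ?_⟩
    rw [hΦ s (by simpa using hs), h2.f_apply (hSK hs)]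

section

variable {X X' : Type v} [MulAction G X] [MulAction G X'] {S : Set G} {F : Set X} {A B : Set X'}
  {θ : X → X'} {θ' : X' → X} {η η' : X' → X'} {ΦW : G →* Equiv.Perm (W F A B)}
  {ΦY : G →* Equiv.Perm (Y A B)}

theorem sh_equi (hS : Submonoid.closure S = ⊤) (hY : IsY S η η' ΦY) (g : G) (n : ℤ)
    (p : Y A B) : ΦY g (sh A B n p) = sh A B n (ΦY g p) := by
  have hg : g ∈ Submonoid.closure S := by rw [hS]; trivial
  induction hg using Submonoid.closure_induction generalizing n p with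
  | mem s hs =>
    apply Subtype.ext
    rw [hY s hs]
    change _ = ((ΦY s p : X' × ℤ).1, (ΦY s p : X' × ℤ).2 + n)
    rw [hY s hs]
    obtain ⟨⟨x, k⟩, hp⟩ := p
    change M A B η η' s (x, k + n) = _
    rw [M_shift s x (k + n), M_shift s x k]
    simp only [add_assoc]
  | one => rw [map_one]; rfl
  | mul g g' _ _ ih ih' =>
    rw [map_mul, Equiv.Perm.mul_apply, ih', ih, Equiv.Perm.mul_apply]

/-- Far from the left end the two actions agree. -/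
theorem deep (hW : IsW S θ θ' η η' ΦW) (hY : IsY S η η' ΦY) {r : ℕ} {g : G} (hg : g ∈ S ^ r)
    (y : X') (n : ℕ) (hn : r ≤ n) (hy : y ∈ B ∧ y ∉ A) :
    ∃ (y' : X') (n' : ℕ), n ≤ n' + r ∧
      (ΦW g ⟨Sum.inr (y, n), inr_mem.2 hy⟩ : X ⊕ (X' × ℕ)) = Sum.inr (y', n') ∧
      (ΦY g ⟨(y, (n : ℤ)), hy⟩ : X' × ℤ) = (y', (n' : ℤ)) := by
  induction r generalizing g with
  | zero =>
    rw [pow_zero, Set.mem_one] at hg
    subst hg
    refine ⟨y, n, le_refl _, ?_, ?_⟩ <;> rw [map_one] <;> rfl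
  | succ r ih =>
    rw [pow_succ'] at hg
    obtain ⟨s, hs, g', hg', rfl⟩ := Set.mem_mul.1 hg
    obtain ⟨y', n', h1, h2, h3⟩ := ih hg' (by omega)
    obtain ⟨k, rfl⟩ : ∃ k, n' = k + 1 := ⟨n' - 1, by omega⟩
    have e2 : (ΦW (s * g') ⟨Sum.inr (y, n), inr_mem.2 hy⟩ : X ⊕ (X' × ℕ)) =
        m2 A B θ' η η' (s • y') (k + 1) := by
      rw [map_mul, Equiv.Perm.mul_apply, hW s hs, h2]
      rfl
    have e3 : (ΦY (s * g') ⟨(y, (n : ℤ)), hy⟩ : X' × ℤ) = M A B η η' s (y', ((k + 1 : ℕ) : ℤ)) := by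
      rw [map_mul, Equiv.Perm.mul_apply, hY s hs, h3]
    by_cases hA : s • y' ∈ A
    · refine ⟨η (s • y'), k, by omega, ?_, ?_⟩
      · rw [e2, m2_succ hA]
      · rw [e3, M_of_mem_A hA]
        push_cast
        rw [add_sub_cancel_right]
    · by_cases hB : s • y' ∈ B
      · refine ⟨s • y', k + 1, by omega, ?_, ?_⟩
        · rw [e2, m2_mid hA hB]
        · rw [e3, M_of_mem hA hB]
      · refine ⟨η' (s • y'), k + 2, by omega, ?_, ?_⟩
        · rw [e2, m2_out hA hB]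
        · rw [e3, M_of_notMem hA hB]
          push_cast
          rw [add_assoc]
          rfl

/-- Inside of the left end the action is the given one. -/
theorem shallow (h1S : (1 : G) ∈ S) (hW : IsW S θ θ' η η' ΦW) {r : ℕ} {g : G} (hg : g ∈ S ^ r)
    {x : X} (hx : nb S r {x} ⊆ F) (hxF : x ∈ F) :
    (ΦW g ⟨Sum.inl x, inl_mem.2 hxF⟩ : X ⊕ (X' × ℕ)) = Sum.inl (g • x) := by
  induction r generalizing g with
  | zero =>
    rw [pow_zero, Set.mem_one] at hg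
    subst hg
    rw [map_one, one_smul]
    rfl
  | succ r ih =>
    have hgm := hg
    rw [pow_succ'] at hg
    obtain ⟨s, hs, g', hg', rfl⟩ := Set.mem_mul.1 hg
    have h2 := ih hg' (fun z hz => hx (nb_mono h1S (Nat.le_succ r) _ hz))
    rw [map_mul, Equiv.Perm.mul_apply, hW s hs, h2]
    change m1 F θ (s • g' • x) = _
    rw [mul_smul]
    refine m1_mem (hx ?_)
    rw [← mul_smul]
    exact mem_nb_iff.2 ⟨_, hgm, x, rfl, rfl⟩

theorem conn_mem {F : Set X} {x0 x : X} (hx0 : x0 ∈ F) (h : Conn S F x0 x) : x ∈ F := by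
  cases h with
  | base => exact hx0
  | step _ _ h => exact h

theorem reach_left (hW : IsW S θ θ' η η' ΦW) {x0 : X} (hx0 : x0 ∈ F) {x : X}
    (h : Conn S F x0 x) : ∃ g : G,
      (ΦW g ⟨Sum.inl x0, inl_mem.2 hx0⟩ : X ⊕ (X' × ℕ)) = Sum.inl x := by
  induction h with
  | base => exact ⟨1, by rw [map_one]; rfl⟩
  | @step x s hx hs hsx ih =>
    obtain ⟨g, hg⟩ := ih
    refine ⟨s * g, ?_⟩
    rw [map_mul, Equiv.Perm.mul_apply, hW s hs, hg]
    exact m1_mem hsx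

theorem descend (hSinv : ∀ s ∈ S, s⁻¹ ∈ S) (hW : IsW S θ θ' η η' ΦW) {y0 : X'} (hy0 : y0 ∈ A)
    {y : X'} (h : Conn S B y0 y) : ∀ (n : ℕ) (hy : y ∈ B ∧ y ∉ A), ∃ g : G,
      (∃ x, (ΦW g ⟨Sum.inr (y, n), inr_mem.2 hy⟩ : X ⊕ (X' × ℕ)) = Sum.inl x) ∨
      ∃ (y' : X') (k : ℕ), n = k + 1 ∧
        (ΦW g ⟨Sum.inr (y, n), inr_mem.2 hy⟩ : X ⊕ (X' × ℕ)) = Sum.inr (y', k) := by
  induction h with
  | base => exact fun n hy => absurd hy0 hy.2
  | @step x s hx hs hsx ih =>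
    intro n hy
    have hs' := hSinv s hs
    have e : (ΦW s⁻¹ ⟨Sum.inr (s • x, n), inr_mem.2 hy⟩ : X ⊕ (X' × ℕ)) =
        m2 A B θ' η η' x n := by
      rw [hW _ hs']
      change m2 A B θ' η η' (s⁻¹ • s • x) n = _
      rw [inv_smul_smul]
    by_cases hxA : x ∈ A
    · refine ⟨s⁻¹, ?_⟩
      cases n with
      | zero => exact Or.inl ⟨θ' x, by rw [e, m2_zero hxA]⟩
      | succ k => exact Or.inr ⟨η x, k, rfl, by rw [e, m2_succ hxA]⟩
    · have hxB : x ∈ B := by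
        cases hx with
        | base => exact absurd hy0 hxA
        | step _ _ h => exact h
      obtain ⟨g, hg⟩ := ih n ⟨hxB, hxA⟩
      refine ⟨g * s⁻¹, ?_⟩
      have e2 : ΦW s⁻¹ ⟨Sum.inr (s • x, n), inr_mem.2 hy⟩ =
          ⟨Sum.inr (x, n), inr_mem.2 ⟨hxB, hxA⟩⟩ := by
        apply Subtype.ext
        rw [e, m2_mid hxA hxB]
      rw [map_mul, Equiv.Perm.mul_apply, e2]
      exact hg

theorem to_left (hSinv : ∀ s ∈ S, s⁻¹ ∈ S) (hW : IsW S θ θ' η η' ΦW) {y0 : X'} (hy0 : y0 ∈ A)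
    (hB : ∀ y ∈ B, Conn S B y0 y) (n : ℕ) : ∀ (y : X') (hy : y ∈ B ∧ y ∉ A), ∃ (g : G) (x : X),
      (ΦW g ⟨Sum.inr (y, n), inr_mem.2 hy⟩ : X ⊕ (X' × ℕ)) = Sum.inl x := by
  induction n with
  | zero =>
    intro y hy
    obtain ⟨g, ⟨x, h⟩ | ⟨y', k, h, -⟩⟩ := descend hSinv hW hy0 (hB y hy.1) 0 hy
    · exact ⟨g, x, h⟩
    · omega
  | succ n ih =>
    intro y hy
    obtain ⟨g, ⟨x, h⟩ | ⟨y', k, h, h'⟩⟩ := descend hSinv hW hy0 (hB y hy.1) (n + 1) hy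
    · exact ⟨g, x, h⟩
    · obtain rfl : k = n := by omega
      have hy' : y' ∈ B ∧ y' ∉ A := by
        have := (ΦW g ⟨Sum.inr (y, k + 1), inr_mem.2 hy⟩).2
        rw [h'] at this
        exact inr_mem.1 this
      obtain ⟨g', x, h2⟩ := ih y' hy'
      refine ⟨g' * g, x, ?_⟩
      have e : ΦW g ⟨Sum.inr (y, k + 1), inr_mem.2 hy⟩ = ⟨Sum.inr (y', k), inr_mem.2 hy'⟩ :=
        Subtype.ext h'
      rw [map_mul, Equiv.Perm.mul_apply, e, h2]

/-- All points of the chain are in one orbit. -/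
theorem connected (hSinv : ∀ s ∈ S, s⁻¹ ∈ S) (hW : IsW S θ θ' η η' ΦW) {x0 : X} (hx0 : x0 ∈ F)
    (hF : ∀ x ∈ F, Conn S F x0 x) {y0 : X'} (hy0 : y0 ∈ A)
    (hB : ∀ y ∈ B, Conn S B y0 y) (w : W F A B) :
    ∃ g : G, ΦW g ⟨Sum.inl x0, inl_mem.2 hx0⟩ = w := by
  have hl : ∀ x (hx : x ∈ F), ∃ g : G,
      ΦW g ⟨Sum.inl x0, inl_mem.2 hx0⟩ = ⟨Sum.inl x, inl_mem.2 hx⟩ := by
    intro x hx
    obtain ⟨g, hg⟩ := reach_left hW hx0 (hF x hx)
    exact ⟨g, Subtype.ext hg⟩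
  obtain ⟨x | ⟨y, n⟩, hw⟩ := w
  · exact hl x (inl_mem.1 hw)
  · obtain ⟨g, x, hg⟩ := to_left hSinv hW hy0 hB n y (inr_mem.1 hw)
    have hx : x ∈ F := by
      have := (ΦW g ⟨Sum.inr (y, n), inr_mem.2 (inr_mem.1 hw)⟩).2
      rw [hg] at this
      exact inl_mem.1 this
    obtain ⟨g', hg'⟩ := hl x hx
    refine ⟨g⁻¹ * g', ?_⟩
    rw [map_mul, Equiv.Perm.mul_apply, hg', map_inv, Equiv.Perm.inv_eq_iff_eq]
    exact Subtype.ext hg.symm

/-- **The main lemma.** A normal subgroup generated by elements of length `r` which acts trivially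
on the periodic space acts trivially on the chain. -/
theorem trivial_chain (hSinv : ∀ s ∈ S, s⁻¹ ∈ S) (hW : IsW S θ θ' η η' ΦW) (hY : IsY S η η' ΦY)
    {x0 : X} (hx0 : x0 ∈ F) (hF : ∀ x ∈ F, Conn S F x0 x) {y0 : X'} (hy0 : y0 ∈ A)
    (hB : ∀ y ∈ B, Conn S B y0 y) {y1 : X'} (hy1 : y1 ∈ B ∧ y1 ∉ A) {r : ℕ} {D : Set G}
    (hD : D ⊆ S ^ r) {L : Subgroup G} (hLn : L.Normal) (hDL : Subgroup.closure D = L)
    (hL : ∀ g ∈ D, ΦY g = 1) : ∀ g ∈ L, ΦW g = 1 := by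
  -- the deep point is fixed
  have h1 : ∀ g ∈ D, ΦW g ⟨Sum.inr (y1, r), inr_mem.2 hy1⟩ = ⟨Sum.inr (y1, r), inr_mem.2 hy1⟩ := by
    intro g hg
    obtain ⟨y', n', -, h2, h3⟩ := deep hW hY (hD hg) y1 r le_rfl hy1
    rw [hL g hg] at h3
    have h4 : ((y1, (r : ℤ)) : X' × ℤ) = (y', (n' : ℤ)) := h3
    rw [Prod.mk.injEq] at h4
    obtain ⟨rfl, h5⟩ := h4
    have h6 : r = n' := by exact_mod_cast h5
    subst h6
    exact Subtype.ext h2
  have h2 : ∀ g ∈ L, ΦW g ⟨Sum.inr (y1, r), inr_mem.2 hy1⟩ = ⟨Sum.inr (y1, r), inr_mem.2 hy1⟩ := by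
    intro g hg
    rw [← hDL] at hg
    induction hg using Subgroup.closure_induction with
    | mem g hg => exact h1 g hg
    | one => rw [map_one]; rfl
    | mul a b _ _ iha ihb => rw [map_mul, Equiv.Perm.mul_apply, ihb, iha]
    | inv a _ iha => rw [map_inv, Equiv.Perm.inv_eq_iff_eq, iha]
  intro g hg
  apply Equiv.ext
  intro w
  obtain ⟨a, ha⟩ := connected hSinv hW hx0 hF hy0 hB w
  obtain ⟨b, hb⟩ := connected hSinv hW hx0 hF hy0 hB ⟨Sum.inr (y1, r), inr_mem.2 hy1⟩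
  have h3 : ΦW (b * a⁻¹) w = ⟨Sum.inr (y1, r), inr_mem.2 hy1⟩ := by
    rw [map_mul, Equiv.Perm.mul_apply, ← ha, ← hb, ← Equiv.Perm.mul_apply, ← Equiv.Perm.mul_apply,
      ← map_mul, ← map_mul]
    congr 2
    group
  have h4 := h2 _ (hLn.conj_mem g hg (b * a⁻¹))
  have h5 : ΦW ((b * a⁻¹) * g * (b * a⁻¹)⁻¹) ⟨Sum.inr (y1, r), inr_mem.2 hy1⟩ =
      ΦW (b * a⁻¹) (ΦW g w) := by
    rw [← h3, ← Equiv.Perm.mul_apply, ← Equiv.Perm.mul_apply, ← map_mul, ← map_mul]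
    congr 2
    group
  rw [h5, ← h3] at h4
  exact (ΦW (b * a⁻¹)).injective h4

end

end Pool.Agent.U530.LG
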