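import Pool.Agent.U530.LG.Cuts

/-!
# Actions of linear growth of finitely presented groups
-/

set_option autoImplicit false

open scoped Pointwise commutatorElement

namespace Pool.Agent.U530.LG

open Pool.Agent.H71R2.Thin

universe u v

/-- The elements which act trivially on all sets with at most `M` points. -/
def Kt (G : Type u) [Group G] (M : ℕ) : Subgroup G := ⨅ f : G →* Equiv.Perm (Fin M), f.ker

theorem kt_finiteIndex (G : Type u) [Group G] [Group.FG G] (M : ℕ) : (Kt G M).FiniteIndex := by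
  have hfh : Finite (G →* Equiv.Perm (Fin M)) := finite_hom _
  exact Subgroup.finiteIndex_iInf fun f => by
    have : Finite f.range := inferInstance
    infer_instance

theorem kt_trivial {G : Type u} [Group G] {M : ℕ} {g : G} (hg : g ∈ Kt G M) {X : Type v}
    [MulAction G X] [Finite X] (h : Nat.card X ≤ M) (x : X) : g • x = x := by
  let e : X ↪ Fin M := (Finite.equivFin _).toEmbedding.trans (Fin.castLEEmb h)
  let φ : G →* Equiv.Perm (Fin M) :=
    (Equiv.Perm.viaEmbeddingHom e).comp (MulAction.toPermHom G X)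
  have h5 : φ g = 1 := (Subgroup.mem_iInf.1 hg) φ
  have h6 : MulAction.toPermHom G X g = 1 := by
    apply Equiv.Perm.viaEmbeddingHom_injective e
    rw [map_one]
    exact h5
  exact DFunLike.congr_fun h6 x

theorem bl_pow {G : Type u} [Group G] {X : Type v} [MulAction G X] {S S' : Set G} {m : ℕ}
    (h : S' ⊆ S ^ m) (x : X) (k : ℕ) : Bl S' x k ⊆ Bl S x (m * k) := by
  intro y hy
  obtain ⟨g, hg, d, hd, rfl⟩ := mem_nb_iff.1 hy
  refine mem_nb_iff.2 ⟨g, ?_, d, hd, rfl⟩
  rw [pow_mul]
  exact Set.pow_subset_pow_left h hg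

/-- **Theorem.** Let `L` be a finitely generated subgroup of the finitely presented group `G` such
that the commutator subgroups of the subgroups of finite index of `L` are finitely generated. There
is a subgroup `A` of finite index of `L` such that in all actions of `G`, for all large `n` and all
points `x` with at most `c * n` points at distance at most `n` from `x`, all points of the `L`-orbit
of `x` are at distance at most `n` from `x` or the commutators of `A` fix `x`. -/
theorem main (G : Type u) [Group G] [Group.IsFinitelyPresented G] {S : Set G}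
    (hSf : S.Finite) (h1S : (1 : G) ∈ S) (hS : Submonoid.closure S = ⊤)
    (L : Subgroup G) (hLfg : L.FG)
    (hLc : ∀ K : Subgroup L, K.FiniteIndex → (⁅K, K⁆ : Subgroup L).FG) (c : ℕ) :
    ∃ A : Subgroup L, A.FiniteIndex ∧ ∃ n0 : ℕ, ∀ n, n0 ≤ n →
      ∀ (X : Type v) [MulAction G X] (x : X), (Bl S x n).ncard ≤ c * n →
        (∀ g ∈ L, g • x ∈ Bl S x n) ∨
          ∀ a ∈ A, ∀ b ∈ A, (a : G) • (b : G) • x = (b : G) • (a : G) • x := by
  classical
  obtain ⟨D0, hD0⟩ := id hLfg
  set D : Set G := (D0 : Set G) ∪ (D0 : Set G)⁻¹ with hD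
  have hDf : D.Finite := D0.finite_toSet.union D0.finite_toSet.inv
  have hDinv : ∀ d ∈ D, d⁻¹ ∈ D := by
    rintro k (hk | hk)
    · exact Or.inr (by rw [Set.mem_inv, inv_inv]; exact hk)
    · exact Or.inl hk
  have hDL : Subgroup.closure D = L := by
    apply le_antisymm
    · rw [Subgroup.closure_le, ← hD0]
      rintro d (hd | hd)
      · exact Subgroup.subset_closure hd
      · have h1 : d⁻¹ ∈ Subgroup.closure (D0 : Set G) := Subgroup.subset_closure hd
        have := Subgroup.inv_mem _ h1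
        rwa [inv_inv] at this
    · rw [← hD0]
      exact Subgroup.closure_mono Set.subset_union_left
  set S' : Set G := S ∪ D with hS'
  have hS'f : S'.Finite := hSf.union hDf
  have h1S' : (1 : G) ∈ S' := Or.inl h1S
  have hS'c : Submonoid.closure S' = ⊤ := by
    rw [eq_top_iff, ← hS]
    exact Submonoid.closure_mono Set.subset_union_left
  obtain ⟨m, hm, hS'm⟩ := exists_pow h1S hS hS'f
  obtain ⟨K, hK⟩ := exists_large.{u, v} (G := G) hS'f
  obtain ⟨l, hl, hKS⟩ := exists_pow h1S' hS'c hK.fin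
  set c' := 2 * (c * m) with hc'
  obtain ⟨K0, hK0n, hK0f, hgood⟩ := exists_good.{u, v} D hS'c hK (10 * l * c')
  set KL : Subgroup L := K0.subgroupOf L with hKL
  have hKLf : KL.FiniteIndex := inferInstance
  have hKLn : KL.Normal := inferInstance
  set L' : Subgroup G := (⁅KL, KL⁆ : Subgroup L).map L.subtype with hL'
  have hLmap : L' = ⁅K0 ⊓ L, K0 ⊓ L⁆ := by
    rw [hL', Subgroup.map_commutator, hKL, Subgroup.subgroupOf_map_subtype]
  have hLn : ∀ a ∈ Subgroup.closure D, ∀ g ∈ L', a * g * a⁻¹ ∈ L' := by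
    rw [hDL]
    rintro a ha _ ⟨g, hg, rfl⟩
    exact ⟨⟨a, ha⟩ * g * ⟨a, ha⟩⁻¹,
      (inferInstance : (⁅KL, KL⁆ : Subgroup L).Normal).conj_mem g hg _, rfl⟩
  have hLle : L' ≤ ⁅K0, K0⁆ := by
    rw [hLmap]
    exact Subgroup.commutator_mono inf_le_left inf_le_left
  have hL'fg : L'.FG := by
    obtain ⟨T, hT⟩ := hLc KL hKLf
    refine ⟨T.image L.subtype, ?_⟩
    rw [Finset.coe_image, ← MonoidHom.map_closure, hT]
  obtain ⟨T, hT⟩ := hL'fg
  obtain ⟨r, -, hTr⟩ := exists_pow h1S' hS'c T.finite_toSet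
  obtain ⟨n0, hn0⟩ := fixed_point.{u, v} hS'f h1S' (Set.subset_union_right) hDinv hK hl hKS c'
    hgood hTr hLn hT hLle
  refine ⟨KL, hKLf, m * (n0 + 1), fun n hn => ?_⟩
  set n' := n / m with hn'
  have h1 : n0 + 1 ≤ n' := by
    rw [hn', Nat.le_div_iff_mul_le hm, mul_comm]
    exact hn
  have h2 : n < m * (n' + 1) := Nat.lt_mul_div_succ n hm
  have h3 : m * n' ≤ n := Nat.mul_div_le n m
  have h4 : c * n ≤ c' * n' := by
    have h5 : c * n ≤ c * (m * (n' + 1)) := Nat.mul_le_mul_left _ h2.le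
    have h6 : c * (m * (n' + 1)) ≤ c * (m * (2 * n')) :=
      Nat.mul_le_mul_left _ (Nat.mul_le_mul_left _ (by omega))
    have h7 : c * (m * (2 * n')) = c' * n' := by rw [hc']; ring
    omega
  intro X _ x hX
  have hsubn : Bl S' x n' ⊆ Bl S x n := (bl_pow hS'm x n').trans (nb_mono h1S h3 _)
  by_cases hout : ∃ g ∈ Subgroup.closure D, g • x ∉ Bl S' x n'
  · right
    intro a ha b hb
    have h5 : (Bl S' x n').ncard ≤ c' * n' :=
      le_trans (Set.ncard_le_ncard hsubn (bl_finite hSf x n)) (hX.trans h4)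
    have h6 := hn0 n' (by omega) X x hout h5
    have hcom : ⁅(a : G)⁻¹, (b : G)⁻¹⁆ ∈ L' := by
      rw [hLmap]
      exact Subgroup.commutator_mem_commutator ⟨K0.inv_mem ha, L.inv_mem a.2⟩
        ⟨K0.inv_mem hb, L.inv_mem b.2⟩
    have h7 := h6 _ hcom
    have e : (a : G) * b = (b : G) * a * ⁅(a : G)⁻¹, (b : G)⁻¹⁆ := by
      rw [commutatorElement_def]
      group
    rw [← mul_smul, ← mul_smul, e, mul_smul, h7]
  · left
    push Not at hout
    rw [hDL] at hout
    exact fun g hg => hsubn (hout g hg)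

/-- One subgroup of finite index for all points, for a given radius. -/
theorem main_radius (G : Type u) [Group G] [Group.IsFinitelyPresented G] {S : Set G}
    (hSf : S.Finite) (h1S : (1 : G) ∈ S) (hS : Submonoid.closure S = ⊤)
    (L : Subgroup G) (hLfg : L.FG)
    (hLc : ∀ K : Subgroup L, K.FiniteIndex → (⁅K, K⁆ : Subgroup L).FG) (c : ℕ) :
    ∃ n0 : ℕ, ∀ n, n0 ≤ n → ∃ A : Subgroup L, A.FiniteIndex ∧
      ∀ (X : Type v) [MulAction G X] (x : X), (Bl S x n).ncard ≤ c * n →
        ∀ a ∈ A, ∀ b ∈ A, (a : G) • (b : G) • x = (b : G) • (a : G) • x := by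
  classical
  obtain ⟨A0, hA0, n0, h⟩ := main.{u, v} G hSf h1S hS L hLfg hLc c
  refine ⟨n0, fun n hn => ?_⟩
  have hLFG : Group.FG L := (Group.fg_iff_subgroup_fg L).2 hLfg
  have hktf := kt_finiteIndex L (S ^ n).ncard
  refine ⟨A0 ⊓ Kt L (S ^ n).ncard, inferInstance, ?_⟩
  intro X _ x hX a ha b hb
  rcases h n hn X x hX with hout | hcom
  · have hsub : MulAction.orbit L x ⊆ Bl S x n := by
      rintro _ ⟨g, rfl⟩
      exact hout g.1 g.2
    have hfb := bl_finite hSf x n
    have hfin : Finite (MulAction.orbit L x) := (hfb.subset hsub).to_subtype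
    have hcard : Nat.card (MulAction.orbit L x) ≤ (S ^ n).ncard :=
      (Set.ncard_le_ncard hsub hfb).trans (bl_ncard_le hSf x n)
    set x' : MulAction.orbit L x := ⟨x, MulAction.mem_orbit_self x⟩ with hx'
    have key : a • b • x' = b • a • x' := by
      rw [kt_trivial hb.2 hcard, kt_trivial ha.2 hcard, kt_trivial hb.2 hcard]
    exact congrArg Subtype.val key
  · exact hcom a ha.1 b hb.1

end Pool.Agent.U530.LG
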