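import Pool.Agent.U530.LG.Reach

/-!
# Patterns of cuts
-/

set_option autoImplicit false

open scoped Pointwise commutatorElement

namespace Pool.Agent.U530.LG

open Pool.Agent.H71R2.Thin

universe u v

variable {G : Type u} [Group G]

/-- The possible patterns of a boundary with at most `C` points. -/
abbrev Pt (K : Set G) (C : ℕ) : Type u :=
  (((↥(K ^ 4) × Fin C) → (↥(K ^ 4) × Fin C) → Prop) × ((↥(K ^ 4) × Fin C) → Prop)) ×
    ((Fin C → Fin C → Prop) × (Fin C → Prop))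

theorem finite_pt {K : Set G} (hK : K.Finite) (C : ℕ) : Finite (Pt K C) := by
  have : Finite ↥(K ^ 4) := (finite_pow hK 4).to_subtype
  infer_instance

/-- The set `E` has a boundary of the pattern `p`; the pattern records the surroundings of the
boundary, and the connections in `E` by steps in `D` of the boundary points with each other and
with `x0`. -/
def HasP (K D : Set G) (C : ℕ) {X : Type v} [MulAction G X] (E : Set X) (x0 : X) (p : Pt K C) :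
    Prop :=
  ∃ d : Fin C → X, Set.range d = bd K E ∧
    (∀ q q', p.1.1 q q' ↔ q.1.1 • d q.2 = q'.1.1 • d q'.2) ∧
    (∀ q, p.1.2 q ↔ q.1.1 • d q.2 ∈ E) ∧
    (∀ a b, p.2.1 a b ↔ Conn D E (d a) (d b)) ∧ ∀ a, p.2.2 a ↔ Conn D E x0 (d a)

theorem exists_hasP {K : Set G} (D : Set G) {C : ℕ} {X : Type v} [MulAction G X] {E : Set X}
    (x0 : X) (hE : E.Finite) (hne : (bd K E).Nonempty) (hC : (bd K E).ncard ≤ C) :
    ∃ p : Pt K C, HasP K D C E x0 p := by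
  obtain ⟨d, hd⟩ := exists_range_eq (hE.subset fun x hx => hx.1 : (bd K E).Finite) hne hC
  exact ⟨((fun q q' => q.1.1 • d q.2 = q'.1.1 • d q'.2, fun q => q.1.1 • d q.2 ∈ E),
    (fun a b => Conn D E (d a) (d b), fun a => Conn D E x0 (d a))), d, hd,
    fun _ _ => Iff.rfl, fun _ => Iff.rfl, fun _ _ => Iff.rfl, fun _ => Iff.rfl⟩

section

variable {X X' : Type v} [MulAction G X] [MulAction G X']

open Classical in
/-- The transfer map. -/
noncomputable def tr (T : Set G) {C : ℕ} (d : Fin C → X) (e : Fin C → X') (z : X') (x : X) : X' :=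
  if h : ∃ q : G × Fin C, q.1 ∈ T ∧ x = q.1 • d q.2 then h.choose.1 • e h.choose.2 else z

theorem tr_spec {T : Set G} {C : ℕ} {d : Fin C → X} {e : Fin C → X'} {z : X'}
    (hpat : ∀ g ∈ T, ∀ g' ∈ T, ∀ a b, g • d a = g' • d b → g • e a = g' • e b)
    {g : G} (hg : g ∈ T) (a : Fin C) : tr T d e z (g • d a) = g • e a := by
  have h : ∃ q : G × Fin C, q.1 ∈ T ∧ g • d a = q.1 • d q.2 := ⟨(g, a), hg, rfl⟩
  unfold tr
  rw [dif_pos h]
  exact (hpat _ hg _ h.choose_spec.1 _ _ h.choose_spec.2).symm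

theorem li_of {K D : Set G} (h1 : (1 : G) ∈ K) {C : ℕ} {F : Set X} {x0 : X} {A : Set X'}
    {y0 : X'} {p : Pt K C} (hF : HasP K D C F x0 p) (hA : HasP K D C A y0 p) :
    ∃ θ θ', LI K F A θ θ' ∧
      (∀ a ∈ bd K A, ∀ a' ∈ bd K A, Conn D A a a' → Conn D F (θ' a) (θ' a')) ∧
      (∀ a ∈ bd K A, Conn D A y0 a → Conn D F x0 (θ' a)) ∧
      (∀ a ∈ bd K F, Conn D F x0 a → Conn D A y0 (θ a)) := by
  obtain ⟨d, hd, hd1, hd2, hd3, hd4⟩ := hF
  obtain ⟨e, he, he1, he2, he3, he4⟩ := hA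
  set T : Set G := K ^ 4 with hT
  have hle : ∀ {r : ℕ}, r ≤ 4 → K ^ r ⊆ T := fun h => pow_mono h1 h
  have hpat : ∀ g ∈ T, ∀ g' ∈ T, ∀ a b, (g • d a = g' • d b ↔ g • e a = g' • e b) :=
    fun g hg g' hg' a b => (hd1 (⟨g, hg⟩, a) (⟨g', hg'⟩, b)).symm.trans
      (he1 (⟨g, hg⟩, a) (⟨g', hg'⟩, b))
  have hmem : ∀ g ∈ T, ∀ a, (g • d a ∈ F ↔ g • e a ∈ A) :=
    fun g hg a => (hd2 (⟨g, hg⟩, a)).symm.trans (he2 (⟨g, hg⟩, a))
  have s1 : ∀ g ∈ T, ∀ a, tr T d e y0 (g • d a) = g • e a := fun g hg a =>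
    tr_spec (fun g hg g' hg' a b => (hpat g hg g' hg' a b).1) hg a
  have s2 : ∀ g ∈ T, ∀ a, tr T e d x0 (g • e a) = g • d a := fun g hg a =>
    tr_spec (fun g hg g' hg' a b => (hpat g hg g' hg' a b).2) hg a
  have mF : ∀ {r : ℕ} {x : X}, x ∈ nb K r (bd K F) → ∃ g ∈ K ^ r, ∃ a, x = g • d a := by
    intro r x hx
    obtain ⟨g, hg, y, hy, rfl⟩ := mem_nb_iff.1 hx
    rw [← hd] at hy
    obtain ⟨a, rfl⟩ := hy
    exact ⟨g, hg, a, rfl⟩
  have mA : ∀ {r : ℕ} {x : X'}, x ∈ nb K r (bd K A) → ∃ g ∈ K ^ r, ∃ a, x = g • e a := by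
    intro r x hx
    obtain ⟨g, hg, y, hy, rfl⟩ := mem_nb_iff.1 hx
    rw [← he] at hy
    obtain ⟨a, rfl⟩ := hy
    exact ⟨g, hg, a, rfl⟩
  have nF : ∀ {r : ℕ} {g : G} (_ : g ∈ K ^ r) (a : Fin C), g • d a ∈ nb K r (bd K F) :=
    fun hg a => mem_nb_iff.2 ⟨_, hg, d a, by rw [← hd]; exact ⟨a, rfl⟩, rfl⟩
  have nA : ∀ {r : ℕ} {g : G} (_ : g ∈ K ^ r) (a : Fin C), g • e a ∈ nb K r (bd K A) :=
    fun hg a => mem_nb_iff.2 ⟨_, hg, e a, by rw [← he]; exact ⟨a, rfl⟩, rfl⟩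
  have o1 : ∀ a, tr T d e y0 (d a) = e a := by
    intro a
    have := s1 1 (Set.one_mem_pow h1) a
    rwa [one_smul, one_smul] at this
  have o2 : ∀ a, tr T e d x0 (e a) = d a := by
    intro a
    have := s2 1 (Set.one_mem_pow h1) a
    rwa [one_smul, one_smul] at this
  refine ⟨tr T d e y0, tr T e d x0, ⟨?_, ?_, ?_, ?_, ?_, ?_, ?_, ?_⟩, ?_, ?_, ?_⟩
  · intro r hr x hx
    obtain ⟨g, hg, a, rfl⟩ := mF hx
    rw [s1 g (hle hr hg)]
    exact nA hg a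
  · intro r hr x hx
    obtain ⟨g, hg, a, rfl⟩ := mA hx
    rw [s2 g (hle hr hg)]
    exact nF hg a
  · intro x hx
    obtain ⟨g, hg, a, rfl⟩ := mF hx
    rw [s1 g hg, s2 g hg]
  · intro x hx
    obtain ⟨g, hg, a, rfl⟩ := mA hx
    rw [s2 g hg, s1 g hg]
  · intro x hx
    obtain ⟨g, hg, a, rfl⟩ := mF hx
    rw [s1 g hg]
    exact hmem g hg a
  · intro x hx
    obtain ⟨g, hg, a, rfl⟩ := mA hx
    rw [s2 g hg]
    exact hmem g hg a
  · intro x hx k hk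
    obtain ⟨g, hg, a, rfl⟩ := mF hx
    have hkg : k * g ∈ K ^ 4 := by rw [pow_succ']; exact Set.mul_mem_mul hk hg
    rw [← mul_smul, s1 _ hkg, s1 g (hle (by norm_num) hg), mul_smul]
  · intro x hx k hk
    obtain ⟨g, hg, a, rfl⟩ := mA hx
    have hkg : k * g ∈ K ^ 4 := by rw [pow_succ']; exact Set.mul_mem_mul hk hg
    rw [← mul_smul, s2 _ hkg, s2 g (hle (by norm_num) hg), mul_smul]
  · rintro a ha a' ha' hc
    rw [← he] at ha ha'
    obtain ⟨i, rfl⟩ := ha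
    obtain ⟨j, rfl⟩ := ha'
    rw [o2, o2]
    exact (hd3 i j).1 ((he3 i j).2 hc)
  · rintro a ha hc
    rw [← he] at ha
    obtain ⟨i, rfl⟩ := ha
    rw [o2]
    exact (hd4 i).1 ((he4 i).2 hc)
  · rintro a ha hc
    rw [← hd] at ha
    obtain ⟨i, rfl⟩ := ha
    rw [o1]
    exact (he4 i).1 ((hd4 i).2 hc)

theorem glue_of {K D : Set G} (h1 : (1 : G) ∈ K) (hinv : ∀ k ∈ K, k⁻¹ ∈ K) {C : ℕ}
    {A B : Set X} {x0 : X} {p : Pt K C} (hA : HasP K D C A x0 p) (hB : HasP K D C B x0 p)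
    (hfar : ∀ g ∈ K ^ 5, ∀ x ∈ A, g • x ∈ B) : ∃ η η' : X → X, Glue K A B η η' ∧
      (∀ a ∈ bd K A, ∀ a' ∈ bd K A, Conn D A a a' → Conn D B (η a) (η a')) ∧
      (∀ a ∈ bd K A, Conn D A x0 a → Conn D B x0 (η a)) := by
  obtain ⟨d, hd, hd1, hd2, hd3, hd4⟩ := hA
  obtain ⟨e, he, he1, he2, he3, he4⟩ := hB
  obtain ⟨η, η', h, hη⟩ := glue_of_pattern h1 hinv hfar d e hd he
    (fun g hg g' hg' a b => (hd1 (⟨g, hg⟩, a) (⟨g', hg'⟩, b)).symm.trans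
      (he1 (⟨g, hg⟩, a) (⟨g', hg'⟩, b)))
    (fun g hg a => (hd2 (⟨g, hg⟩, a)).symm.trans (he2 (⟨g, hg⟩, a)))
  refine ⟨η, η', h, ?_, ?_⟩
  · rintro a ha a' ha' hc
    rw [← hd] at ha ha'
    obtain ⟨i, rfl⟩ := ha
    obtain ⟨j, rfl⟩ := ha'
    rw [hη, hη]
    exact (he3 i j).1 ((hd3 i j).2 hc)
  · rintro a ha hc
    rw [← hd] at ha
    obtain ⟨i, rfl⟩ := ha
    rw [hη]
    exact (he4 i).1 ((hd4 i).2 hc)

end

/-- The pattern `p` occurs at two nested cuts. -/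
def HasPair (K D : Set G) (C : ℕ) (p : Pt K C) : Prop :=
  ∃ (X' : Type v) (_ : MulAction G X') (A B : Set X') (η η' : X' → X') (y0 : X'),
    Glue K A B η η' ∧ HasP K D C A y0 p ∧ B.Finite ∧ y0 ∈ A ∧
    (∀ a ∈ bd K A, ∀ a' ∈ bd K A, Conn D A a a' → Conn D B (η a) (η a')) ∧
    (∀ a ∈ bd K A, Conn D A y0 a → Conn D B y0 (η a))

/-- The pattern `p` occurs at two nested cuts and the subgroup `K0` acts on the periodic
space by commuting permutations. -/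
def GoodP (S K D : Set G) (C : ℕ) (p : Pt K C) (K0 : Subgroup G) : Prop :=
  ∃ (X' : Type v) (_ : MulAction G X') (A B : Set X') (η η' : X' → X') (y0 : X')
    (ΦY : G →* Equiv.Perm (Y A B)),
    Glue K A B η η' ∧ HasP K D C A y0 p ∧ y0 ∈ A ∧
    (∀ a ∈ bd K A, ∀ a' ∈ bd K A, Conn D A a a' → Conn D B (η a) (η a')) ∧
    (∀ a ∈ bd K A, Conn D A y0 a → Conn D B y0 (η a)) ∧
    IsY S η η' ΦY ∧ ∀ a ∈ K0, ∀ b ∈ K0, ΦY a * ΦY b = ΦY b * ΦY a

theorem GoodP.mono {S K D : Set G} {C : ℕ} {p : Pt K C} {K0 K1 : Subgroup G}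
    (h : GoodP.{u, v} S K D C p K0) (hle : K1 ≤ K0) : GoodP.{u, v} S K D C p K1 := by
  obtain ⟨X', i, A, B, η, η', y0, ΦY, h1, h2, h3, h4, h5, h6, h7⟩ := h
  exact ⟨X', i, A, B, η, η', y0, ΦY, h1, h2, h3, h4, h5, h6,
    fun a ha b hb => h7 a (hle ha) b (hle hb)⟩

theorem good_of_pair {S K D : Set G} (hS : Submonoid.closure S = ⊤) (hK : Large.{u, v} S K)
    {C : ℕ} {p : Pt K C} (h : HasPair.{u, v} K D C p) :
    ∃ K0 : Subgroup G, K0.Normal ∧ K0.FiniteIndex ∧ GoodP.{u, v} S K D C p K0 := by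
  obtain ⟨X', i, A, B, η, η', y0, h1, h2, hf, h3, h4, h5⟩ := h
  obtain ⟨ΦY, hY⟩ := hK.homY X' A B η η' h1
  have hsh : ∀ g n p, ΦY g (sh A B n p) = sh A B n (ΦY g p) := sh_equi hS hY
  have hfin : Finite (Q A B) := finite_Q hf
  have hfi : (toQ ΦY hsh).ker.FiniteIndex := by
    have : Finite (toQ ΦY hsh).range := inferInstance
    infer_instance
  refine ⟨(toQ ΦY hsh).ker, inferInstance, hfi, X', i, A, B, η, η', y0, ΦY, h1, h2, h3, h4,
    h5, hY, fun a ha b hb => ?_⟩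
  apply Equiv.ext
  intro q
  obtain ⟨da, ea⟩ : ∃ da : ℤ, ∀ k, ΦY a (lf (pj q) k) = lf (pj q) (da + k) :=
    ⟨_, ker_apply ΦY hsh ha (pj q)⟩
  obtain ⟨db, eb⟩ : ∃ db : ℤ, ∀ k, ΦY b (lf (pj q) k) = lf (pj q) (db + k) :=
    ⟨_, ker_apply ΦY hsh hb (pj q)⟩
  have e : ΦY a (ΦY b (lf (pj q) q.1.2)) = ΦY b (ΦY a (lf (pj q) q.1.2)) := by
    rw [eb, ea, ea, eb, add_left_comm]
  rwa [lf_eq q] at e

theorem exists_good {S K : Set G} (D : Set G) (hS : Submonoid.closure S = ⊤)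
    (hK : Large.{u, v} S K) (C : ℕ) :
    ∃ K0 : Subgroup G, K0.Normal ∧ K0.FiniteIndex ∧
      ∀ p : Pt K C, HasPair.{u, v} K D C p → GoodP.{u, v} S K D C p K0 := by
  classical
  have hfin := finite_pt hK.fin C
  have h : ∀ p : Pt K C, ∃ K0 : Subgroup G, K0.Normal ∧ K0.FiniteIndex ∧
      (HasPair.{u, v} K D C p → GoodP.{u, v} S K D C p K0) := by
    intro p
    by_cases hp : HasPair.{u, v} K D C p
    · obtain ⟨K0, h1, h2, h3⟩ := good_of_pair hS hK hp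
      exact ⟨K0, h1, h2, fun _ => h3⟩
    · exact ⟨⊤, inferInstance, inferInstance, fun h => absurd h hp⟩
  choose K0 h1 h2 h3 using h
  exact ⟨⨅ p, K0 p, Subgroup.normal_iInf_normal h1, Subgroup.finiteIndex_iInf h2,
    fun p hp => (h3 p hp).mono (iInf_le _ _)⟩

/-- Points in the middle of a cut of the pattern `p` whose orbits meet the boundary are fixed. -/
theorem fixed {S K D : Set G} (h1S : (1 : G) ∈ S) (hDS : D ⊆ S)
    (hK : Large.{u, v} S K) {C : ℕ} {p : Pt K C} {K0 : Subgroup G}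
    (hp : GoodP.{u, v} S K D C p K0) {r : ℕ} {T : Set G} (hT : T ⊆ S ^ r) {L' : Subgroup G}
    (hn : ∀ a ∈ Subgroup.closure D, ∀ g ∈ L', a * g * a⁻¹ ∈ L')
    (hTL : Subgroup.closure T = L') (hL : L' ≤ ⁅K0, K0⁆)
    (X : Type v) [MulAction G X] (F : Set X) (x0 : X) (hF : HasP K D C F x0 p)
    (hx : nb S r {x0} ⊆ F) {a : X} (ha : a ∈ bd K F) (hca : Conn D F x0 a) :
    ∀ g ∈ T, g • x0 = x0 := by
  obtain ⟨X', i, A, B, η, η', y0, ΦY, h1, h2, h3, h4, h5, h6, h7⟩ := hp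
  have hx0 : x0 ∈ F := hx (nb_mono h1S (Nat.zero_le r) _ rfl)
  obtain ⟨θ, θ', hLI, hc1, hc2, hc3⟩ := li_of hK.one hF h2
  have hch : Chn K D F x0 A B y0 θ θ' η η' := ⟨hLI, h1, hDS.trans hK.sub, h3, hc1, hc2, h4, h5⟩
  obtain ⟨ΦW, hW⟩ := hK.homW X X' F A B θ θ' η η' hLI h1
  have hker : ⁅K0, K0⁆ ≤ ΦY.ker := by
    rw [Subgroup.commutator_le]
    intro a ha b hb
    rw [MonoidHom.mem_ker, map_commutatorElement, commutatorElement_eq_one_iff_mul_comm]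
    exact h7 a ha b hb
  have hTL' : ∀ g ∈ T, g ∈ L' := fun g hg => hTL ▸ Subgroup.subset_closure hg
  have ha' : θ a ∈ bd K A := hLI.map 0 (by norm_num) a ha
  have hb : η (θ a) ∈ bd K B := h1.map 0 (by norm_num) _ ha'
  have hcb : Conn D B y0 (η (θ a)) := h5 _ ha' (hc3 a ha hca)
  have htriv := fixed_in_chain hch hDS hW h6 hx0 hb hcb hT hTL hn
    (fun g hg => MonoidHom.mem_ker.1 (hker (hL (hTL' g hg))))
  intro g hg
  have e1 := shallow h1S hW (hT hg) hx hx0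
  rw [htriv g (hTL' g hg)] at e1
  exact (Sum.inl_injective e1).symm

end Pool.Agent.U530.LG
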