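import Pool.Agent.U530.LG.Hom

/-!
# Orbits of a subgroup in a chain
-/

set_option autoImplicit false

open scoped Pointwise

namespace Pool.Agent.U530.LG

open Pool.Agent.H71R2.Thin

universe u v

variable {G : Type u} [Group G] {X X' : Type v} [MulAction G X] [MulAction G X']

/-- The data of a chain with information on the connections by steps in `D`. -/
structure Chn (K D : Set G) (F : Set X) (x0 : X) (A B : Set X') (y0 : X') (θ : X → X')
    (θ' : X' → X) (η η' : X' → X') : Prop where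
  li : LI K F A θ θ'
  glue : Glue K A B η η'
  sub : D ⊆ K
  hy0 : y0 ∈ A
  c1 : ∀ a ∈ bd K A, ∀ a' ∈ bd K A, Conn D A a a' → Conn D F (θ' a) (θ' a')
  c2 : ∀ a ∈ bd K A, Conn D A y0 a → Conn D F x0 (θ' a)
  d1 : ∀ a ∈ bd K A, ∀ a' ∈ bd K A, Conn D A a a' → Conn D B (η a) (η a')
  d2 : ∀ a ∈ bd K A, Conn D A y0 a → Conn D B y0 (η a)

section

variable {K D : Set G} {F : Set X} {x0 : X} {A B : Set X'} {y0 : X'} {θ : X → X'}
  {θ' : X' → X} {η η' : X' → X'} {R : X ⊕ (X' × ℕ) → Prop}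

/-- The reachable points at the inner cut of level `n`. -/
def PrevOK (K D : Set G) (A B : Set X') (y0 : X') (θ' : X' → X) (η η' : X' → X')
    (R : X ⊕ (X' × ℕ) → Prop) (n : ℕ) : Prop :=
  (∀ a ∈ bd K A, ∀ a' ∈ bd K A, Conn D A a a' → R (m2 A B θ' η η' a n) →
    R (m2 A B θ' η η' a' n)) ∧
  (∀ a ∈ bd K A, Conn D A y0 a → R (m2 A B θ' η η' a n))

/-- The reachable points at the outer cut of level `n`. -/
def LevelOK (K D : Set G) (B : Set X') (y0 : X') (R : X ⊕ (X' × ℕ) → Prop) (n : ℕ) : Prop :=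
  (∀ b ∈ bd K B, ∀ b' ∈ bd K B, Conn D B b b' → R (Sum.inr (b, n)) → R (Sum.inr (b', n))) ∧
  (∀ b ∈ bd K B, Conn D B y0 b → R (Sum.inr (b, n)))

variable (h : Chn K D F x0 A B y0 θ θ' η η')
  (hR : ∀ d ∈ D, ∀ w, R w → R (mv F A B θ θ' η η' d w))

include h hR

theorem left_ok (h0 : R (Sum.inl x0)) : PrevOK K D A B y0 θ' η η' R 0 := by
  have key : ∀ x y, Conn D F x y → R (Sum.inl x) → R (Sum.inl y) := by
    intro x y hc hx
    induction hc with
    | base => exact hx
    | @step z s _ hs hz ih =>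
      have := hR s hs _ ih
      change R (m1 F θ (s • z)) at this
      rwa [m1_mem hz] at this
  constructor
  · intro a ha a' ha' hc hr
    rw [m2_zero ha.1] at hr
    rw [m2_zero ha'.1]
    exact key _ _ (h.c1 a ha a' ha' hc) hr
  · intro a ha hc
    rw [m2_zero ha.1]
    exact key _ _ (h.c2 a ha hc) h0

omit hR in
theorem prev_succ {n : ℕ} (hn : LevelOK K D B y0 R n) : PrevOK K D A B y0 θ' η η' R (n + 1) := by
  have hmap : ∀ a ∈ bd K A, η a ∈ bd K B := fun a ha => h.glue.map 0 (by norm_num) a ha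
  constructor
  · intro a ha a' ha' hc hr
    rw [m2_succ ha.1] at hr
    rw [m2_succ ha'.1]
    exact hn.1 _ (hmap a ha) _ (hmap a' ha') (h.d1 a ha a' ha' hc) hr
  · intro a ha hc
    rw [m2_succ ha.1]
    exact hn.2 _ (hmap a ha) (h.d2 a ha hc)

theorem level_of_prev {n : ℕ} (hn : PrevOK K D A B y0 θ' η η' R n) :
    LevelOK K D B y0 R n := by
  have hbA : ∀ b ∈ bd K B, b ∉ A := fun b hb =>
    h.glue.notA b (nb_mono h.glue.one (Nat.zero_le 4) _ (show b ∈ nb K 0 (bd K B) from hb))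
  -- leaving `A`
  have exit : ∀ {s : G} {y : X'}, s ∈ D → y ∈ bd K A → s • y ∉ A → s • y ∈ B →
      R (m2 A B θ' η η' y n) → R (Sum.inr (s • y, n)) := by
    intro s y hs hy hsA hsB hr
    have hsK := h.sub hs
    have h3 : y ∈ nb K 3 (bd K A) := nb_mono h.glue.one (Nat.zero_le 3) _
      (show y ∈ nb K 0 (bd K A) from hy)
    have h4 : s • y ∈ nb K 4 (bd K A) := nb_succ_of_mem hsK h3
    have hr' := hR s hs _ hr
    cases n with
    | zero =>
      rw [m2_zero hy.1] at hr'
      change R (m1 F θ (s • θ' y)) at hr'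
      rwa [← h.li.equi' _ h3 s hsK, t1' h.li h.glue h4, m2_mid hsA hsB] at hr'
    | succ k =>
      rw [m2_succ hy.1] at hr'
      change R (m2 A B θ' η η' (s • η y) k) at hr'
      rwa [← h.glue.equi _ h3 s hsK, t2 h.glue h4, m2_mid hsA hsB] at hr'
  constructor
  · intro b hb b' hb' hc hr
    have key : ∀ y, Conn D B b y → (y ∉ A → R (Sum.inr (y, n))) ∧
        (y ∈ A → ∃ a ∈ bd K A, R (m2 A B θ' η η' a n) ∧ Conn D A a y) := by
      intro y hy
      induction hy with
      | base => exact ⟨fun _ => hr, fun h1 => absurd h1 (hbA b hb)⟩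
      | @step y s _ hs hy ihy =>
        constructor
        · intro hsy
          by_cases hyA : y ∈ A
          · obtain ⟨a, ha, hra, hca⟩ := ihy.2 hyA
            have hyb : y ∈ bd K A := ⟨hyA, s, h.sub hs, hsy⟩
            exact exit hs hyb hsy hy (hn.1 a ha y hyb hca hra)
          · have h2 := hR s hs _ (ihy.1 hyA)
            change R (m2 A B θ' η η' (s • y) n) at h2
            rwa [m2_mid hsy hy] at h2
        · intro hsy
          by_cases hyA : y ∈ A
          · obtain ⟨a, ha, hra, hca⟩ := ihy.2 hyA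
            exact ⟨a, ha, hra, hca.step hs hsy⟩
          · exact ⟨s • y, h.glue.bdA_of (h.sub hs) hyA hsy, hR s hs _ (ihy.1 hyA), Conn.base⟩
    exact (key b' hc).1 (hbA b' hb')
  · intro b hb hc
    have key : ∀ y, Conn D B y0 y → (y ∉ A → R (Sum.inr (y, n))) ∧
        (y ∈ A → Conn D A y0 y ∨
          ∃ a ∈ bd K A, R (m2 A B θ' η η' a n) ∧ Conn D A a y) := by
      intro y hy
      induction hy with
      | base => exact ⟨fun h1 => absurd h.hy0 h1, fun _ => Or.inl Conn.base⟩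
      | @step y s _ hs hy ihy =>
        constructor
        · intro hsy
          by_cases hyA : y ∈ A
          · have hyb : y ∈ bd K A := ⟨hyA, s, h.sub hs, hsy⟩
            refine exit hs hyb hsy hy ?_
            rcases ihy.2 hyA with h5 | ⟨a, ha, hra, hca⟩
            · exact hn.2 y hyb h5
            · exact hn.1 a ha y hyb hca hra
          · have h2 := hR s hs _ (ihy.1 hyA)
            change R (m2 A B θ' η η' (s • y) n) at h2
            rwa [m2_mid hsy hy] at h2
        · intro hsy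
          by_cases hyA : y ∈ A
          · rcases ihy.2 hyA with h5 | ⟨a, ha, hra, hca⟩
            · exact Or.inl (h5.step hs hsy)
            · exact Or.inr ⟨a, ha, hra, hca.step hs hsy⟩
          · exact Or.inr ⟨s • y, h.glue.bdA_of (h.sub hs) hyA hsy, hR s hs _ (ihy.1 hyA),
              Conn.base⟩
    exact (key b hc).1 (hbA b hb)

/-- The points at the outer cuts which are connected with the base point are reachable. -/
theorem reach_all (h0 : R (Sum.inl x0)) (n : ℕ) {b : X'} (hb : b ∈ bd K B)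
    (hc : Conn D B y0 b) : R (Sum.inr (b, n)) := by
  have key : ∀ n, LevelOK K D B y0 R n := by
    intro n
    induction n with
    | zero => exact level_of_prev h hR (left_ok h hR h0)
    | succ n ih => exact level_of_prev h hR (prev_succ h ih)
  exact (key n).2 b hb hc

end

/-- **The main lemma.** Let `L` be generated by `D` and let `L'` be a subgroup normalized by `L` which
is generated by elements of length `r` which act trivially on the periodic space. If the `L`-orbit
of the base point meets the outer boundary, then `L'` fixes the base point. -/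
theorem fixed_in_chain {S K D : Set G} {F : Set X} {x0 : X} {A B : Set X'} {y0 : X'} {θ : X → X'}
    {θ' : X' → X} {η η' : X' → X'} (h : Chn K D F x0 A B y0 θ θ' η η') (hDS : D ⊆ S)
    {ΦW : G →* Equiv.Perm (W F A B)} {ΦY : G →* Equiv.Perm (Y A B)}
    (hW : IsW S θ θ' η η' ΦW) (hY : IsY S η η' ΦY) (hx0 : x0 ∈ F) {b : X'} (hb : b ∈ bd K B)
    (hc : Conn D B y0 b) {r : ℕ} {T : Set G} (hT : T ⊆ S ^ r) {L' : Subgroup G}
    (hTL : Subgroup.closure T = L')
    (hn : ∀ a ∈ Subgroup.closure D, ∀ g ∈ L', a * g * a⁻¹ ∈ L')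
    (hL : ∀ g ∈ T, ΦY g = 1) : ∀ g ∈ L',
      ΦW g ⟨Sum.inl x0, inl_mem.2 hx0⟩ = ⟨Sum.inl x0, inl_mem.2 hx0⟩ := by
  have hbA : b ∈ B ∧ b ∉ A := ⟨hb.1, h.glue.notA b (nb_mono h.glue.one (Nat.zero_le 4) _
    (show b ∈ nb K 0 (bd K B) from hb))⟩
  -- the deep point is fixed
  have h1 : ∀ g ∈ T, ΦW g ⟨Sum.inr (b, r), inr_mem.2 hbA⟩ = ⟨Sum.inr (b, r), inr_mem.2 hbA⟩ := by
    intro g hg
    obtain ⟨y', n', -, h2, h3⟩ := deep hW hY (hT hg) b r le_rfl hbA
    rw [hL g hg] at h3
    have h4 : ((b, (r : ℤ)) : X' × ℤ) = (y', (n' : ℤ)) := h3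
    rw [Prod.mk.injEq] at h4
    obtain ⟨rfl, h5⟩ := h4
    have h6 : r = n' := by exact_mod_cast h5
    subst h6
    exact Subtype.ext h2
  have h2 : ∀ g ∈ L', ΦW g ⟨Sum.inr (b, r), inr_mem.2 hbA⟩ = ⟨Sum.inr (b, r), inr_mem.2 hbA⟩ := by
    intro g hg
    rw [← hTL] at hg
    induction hg using Subgroup.closure_induction with
    | mem g hg => exact h1 g hg
    | one => rw [map_one]; rfl
    | mul a b _ _ iha ihb => rw [map_mul, Equiv.Perm.mul_apply, ihb, iha]
    | inv a _ iha => rw [map_inv, Equiv.Perm.inv_eq_iff_eq, iha]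
  -- it is in the orbit of the base point
  have h3 : ∃ a ∈ Subgroup.closure D,
      (ΦW a ⟨Sum.inl x0, inl_mem.2 hx0⟩ : X ⊕ (X' × ℕ)) = Sum.inr (b, r) := by
    refine reach_all (R := fun w => ∃ a ∈ Subgroup.closure D,
      (ΦW a ⟨Sum.inl x0, inl_mem.2 hx0⟩ : X ⊕ (X' × ℕ)) = w) h ?_ ?_ r hb hc
    · rintro d hd w ⟨a, ha, hw⟩
      refine ⟨d * a, Subgroup.mul_mem _ (Subgroup.subset_closure hd) ha, ?_⟩
      rw [map_mul, Equiv.Perm.mul_apply, hW d (hDS hd), hw]
    · exact ⟨1, Subgroup.one_mem _, by rw [map_one]; rfl⟩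
  obtain ⟨a, ha, hab⟩ := h3
  have hab' : ΦW a ⟨Sum.inl x0, inl_mem.2 hx0⟩ = ⟨Sum.inr (b, r), inr_mem.2 hbA⟩ :=
    Subtype.ext hab
  intro g hg
  have h4 := h2 _ (hn a ha g hg)
  have h5 : ΦW (a * g * a⁻¹) ⟨Sum.inr (b, r), inr_mem.2 hbA⟩ =
      ΦW a (ΦW g ⟨Sum.inl x0, inl_mem.2 hx0⟩) := by
    rw [← hab', ← Equiv.Perm.mul_apply, ← Equiv.Perm.mul_apply, ← map_mul, ← map_mul]
    congr 2
    group
  rw [h5, ← hab'] at h4
  exact (ΦW a).injective h4

end Pool.Agent.U530.LG
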